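import Mathlib
import Pool.Agent.Helper51.LT.St

set_option autoImplicit false

namespace Pool.Agent.Helper39.LT

open Complex MeasureTheory Set Metric Filter Topology
open scoped Real ENNReal
open Pool.Agent.Helper51.LT

/-- scaling of the plane -/
private lemma scale_lintegral (ρ : ℝ) (hρ : 0 < ρ) (D : Set ℂ) (hD : MeasurableSet D)
    (F : ℂ → ℝ≥0∞) (hF : Measurable F) :
    ∫⁻ z in D, F z = ENNReal.ofReal (ρ ^ 2) * ∫⁻ v in {v : ℂ | (ρ : ℂ) * v ∈ D}, F ((ρ : ℂ) * v) := by
  have hmap := Measure.map_addHaar_smul (volume : Measure ℂ) hρ.ne'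
  have hfun : (fun v : ℂ => ρ • v) = fun v : ℂ => (ρ : ℂ) * v := by
    funext v; simp
  have hm : Measurable (fun v : ℂ => (ρ : ℂ) * v) := measurable_const_mul _
  have h1 : ∫⁻ z in D, F z ∂(Measure.map (fun v : ℂ => (ρ : ℂ) * v) volume)
      = ∫⁻ v in {v : ℂ | (ρ : ℂ) * v ∈ D}, F ((ρ : ℂ) * v) :=
    setLIntegral_map hD hF hm
  have hmap2 : Measure.map (fun v : ℂ => (ρ : ℂ) * v) volume
      = ENNReal.ofReal ((ρ ^ 2)⁻¹) • (volume : Measure ℂ) := by
    have h2 : ((ρ • ·) : ℂ → ℂ) = fun v : ℂ => (ρ : ℂ) * v := hfun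
    rw [← h2, hmap, Complex.finrank_real_complex, abs_of_pos (by positivity)]
  rw [← h1, hmap2, Measure.restrict_smul, lintegral_smul_measure, smul_eq_mul, ← mul_assoc,
    ← ENNReal.ofReal_mul (by positivity), mul_inv_cancel₀ (by positivity), ENNReal.ofReal_one,
    one_mul]

/-- LOC: local means of an arbitrary univalent function -/
theorem hLoc (hAnn : StAnn) (hInv : StInv) (hAre : StAre) (hPt : StPt) (hSqr : StSqr) : StLoc := by
  refine ⟨1000000, by norm_num, ?_⟩
  intro δ C₀ s Φ w hδ0 hδ1 hC hU hΦ hs hs1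
  have hpi : π ≤ 4 := Real.pi_le_four
  have hpi0 : 0 < π := Real.pi_pos
  have hC0 : (0 : ℝ) < C₀ := by linarith
  have hlog0 : 0 ≤ Real.log (1 / s) := Real.log_nonneg (by rw [le_div_iff₀ hs]; linarith)
  have hpow0 : 0 < s ^ (1 - δ) := Real.rpow_pos_of_pos hs _
  have hpow1 : s ≤ s ^ (1 - δ) := by
    have := Real.rpow_le_rpow_of_exponent_ge hs hs1 (show 1 - δ ≤ 1 by linarith)
    simpa using this
  have hbase : ∀ c : ℝ, c ≤ 1000000 * s ^ (1 - δ) →
      c ≤ 1000000 * C₀ * (1 + Real.log (1 / s)) * s ^ (1 - δ) := by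
    intro c hc
    have h1 : (1 : ℝ) ≤ C₀ * (1 + Real.log (1 / s)) := by nlinarith
    nlinarith
  have hbase2 : ∀ c : ℝ, c ≤ 1000000 * C₀ * s ^ (1 - δ) →
      c ≤ 1000000 * C₀ * (1 + Real.log (1 / s)) * s ^ (1 - δ) := by
    intro c hc
    have h1 : 0 ≤ C₀ * s ^ (1 - δ) := by positivity
    nlinarith [mul_nonneg h1 hlog0]
  set A : Set ℂ := {z : ℂ | 1 - 4 * s ≤ ‖z‖ ∧ ‖z‖ ≤ 1 - s / 5 ∧ ‖Φ z - w‖ ≤ 1} with hA
  have hAsub : A ⊆ {z : ℂ | ‖z‖ < 1 ∧ ‖Φ z - w‖ ≤ 1} := by
    rintro z ⟨-, h2, h3⟩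
    exact ⟨by linarith, h3⟩
  obtain ⟨hAre2, hAre1⟩ := hAre Φ w hΦ
  by_cases hs20 : 1 / 20 < s
  · -- large s
    refine (lintegral_mono_set hAsub).trans (hAre1.trans (ENNReal.ofReal_le_ofReal ?_))
    apply hbase
    nlinarith
  push Not at hs20
  by_cases hball : ball w 20 ⊆ Φ '' ball 0 1
  · -- case 1
    have hpt : ∀ z ∈ A, ENNReal.ofReal ‖deriv Φ z‖
        ≤ ENNReal.ofReal s * ENNReal.ofReal (‖deriv Φ z‖ ^ 2) := by
      rintro z ⟨h1, h2, h3⟩
      have hz : z ∈ ball (0 : ℂ) 1 := by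
        rw [mem_ball_zero_iff]; linarith
      have hsub : ball (Φ z) 19 ⊆ Φ '' ball 0 1 := by
        refine Subset.trans (ball_subset_ball' ?_) hball
        rw [dist_eq_norm]; linarith
      have h4 := hInv Φ z hΦ hz hsub
      rw [← ENNReal.ofReal_mul hs.le]
      apply ENNReal.ofReal_le_ofReal
      have h5 : 0 ≤ ‖deriv Φ z‖ := norm_nonneg _
      have h6 : 1 ≤ ‖deriv Φ z‖ * s := by nlinarith
      nlinarith
    have hmeas : Measurable fun z : ℂ => ENNReal.ofReal (‖deriv Φ z‖ ^ 2) :=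
      ((measurable_deriv Φ).norm.pow_const 2).ennreal_ofReal
    refine (setLIntegral_mono (hmeas.const_mul _) hpt).trans ?_
    rw [lintegral_const_mul _ hmeas]
    refine (mul_le_mul_right ((lintegral_mono_set hAsub).trans hAre2) _).trans ?_
    rw [← ENNReal.ofReal_mul hs.le]
    apply ENNReal.ofReal_le_ofReal
    apply hbase
    nlinarith
  · -- case 2
    obtain ⟨w₀, hw₀, hw₀'⟩ := not_subset.1 hball
    rw [mem_ball, dist_eq_norm] at hw₀
    have hA21 : ∀ z ∈ A, ‖Φ z - w₀‖ ≤ 21 := by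
      rintro z ⟨h1, h2, h3⟩
      have h4 : ‖Φ z - w₀‖ ≤ ‖Φ z - w‖ + ‖w - w₀‖ := by
        have := norm_add_le (Φ z - w) (w - w₀)
        simpa using this
      have h5 : ‖w - w₀‖ = ‖w₀ - w‖ := norm_sub_rev _ _
      linarith
    rcases A.eq_empty_or_nonempty with hAe | ⟨v₀, hv₀⟩
    · rw [hAe]; simp
    set ρ : ℝ := 1 - s / 10 with hρ
    have hρ0 : 0 < ρ := by rw [hρ]; linarith
    have hρ1 : ρ < 1 := by rw [hρ]; linarith
    by_cases hbd : ∀ v : ℂ, ‖v‖ ≤ ρ → ‖Φ v - w₀‖ < 100
    · -- case 2a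
      let g : ℂ → ℂ := fun v => (Φ ((ρ : ℂ) * v) - w₀) / 100
      have hin : ∀ v ∈ ball (0 : ℂ) 1, (ρ : ℂ) * v ∈ ball (0 : ℂ) 1 ∧ ‖(ρ : ℂ) * v‖ ≤ ρ := by
        intro v hv
        rw [mem_ball_zero_iff] at hv
        have hn : ‖(ρ : ℂ) * v‖ = ρ * ‖v‖ := by
          rw [norm_mul, Complex.norm_real, Real.norm_of_nonneg hρ0.le]
        rw [mem_ball_zero_iff, hn]
        constructor <;> nlinarith [norm_nonneg v]
      have hder : ∀ v ∈ ball (0 : ℂ) 1,
          HasDerivAt g (deriv Φ ((ρ : ℂ) * v) * ρ / 100) v := by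
        intro v hv
        have h1 : DifferentiableAt ℂ Φ ((ρ : ℂ) * v) :=
          hΦ.1.differentiableAt (isOpen_ball.mem_nhds (hin v hv).1)
        have h2 : HasDerivAt (fun v : ℂ => (ρ : ℂ) * v) (ρ : ℂ) v := by
          simpa using (hasDerivAt_id v).const_mul (ρ : ℂ)
        have h3 := (h1.hasDerivAt.comp v h2).sub_const w₀
        exact h3.div_const 100
      have hg : BU g := by
        refine ⟨⟨fun v hv => (hder v hv).differentiableAt.differentiableWithinAt, ?_⟩, ?_⟩
        · intro x hx y hy hxy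
          have h1 : Φ ((ρ : ℂ) * x) = Φ ((ρ : ℂ) * y) := by
            have h2 : (Φ ((ρ : ℂ) * x) - w₀) / 100 = (Φ ((ρ : ℂ) * y) - w₀) / 100 := hxy
            have h3 : (Φ ((ρ : ℂ) * x) - w₀) = (Φ ((ρ : ℂ) * y) - w₀) := by
              field_simp at h2
              exact h2
            exact sub_left_injective h3
          have h4 := hΦ.2 (hin x hx).1 (hin y hy).1 h1
          exact mul_left_cancel₀ (by exact_mod_cast hρ0.ne') h4
        · intro z hz
          have h1 := hbd _ (hin z hz).2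
          change ‖(Φ ((ρ : ℂ) * z) - w₀) / 100‖ ≤ 1
          rw [norm_div]
          have : ‖(100 : ℂ)‖ = 100 := by simp
          rw [this, div_le_one (by norm_num)]
          exact h1.le
      set D : Set ℂ := {z : ℂ | 1 - 4 * s ≤ ‖z‖ ∧ ‖z‖ ≤ 1 - s / 5} with hDdef
      have hDm : MeasurableSet D := by
        apply MeasurableSet.inter
        · exact measurableSet_le measurable_const measurable_norm
        · exact measurableSet_le measurable_norm measurable_const
      have hAD : A ⊆ D := by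
        rintro z ⟨h1, h2, -⟩
        exact ⟨h1, h2⟩
      have hFm : Measurable fun z : ℂ => ENNReal.ofReal ‖deriv Φ z‖ :=
        (measurable_deriv Φ).norm.ennreal_ofReal
      have hGm : Measurable fun z : ℂ => ENNReal.ofReal ‖deriv g z‖ :=
        (measurable_deriv g).norm.ennreal_ofReal
      refine (lintegral_mono_set hAD).trans ?_
      rw [scale_lintegral ρ hρ0 D hDm _ hFm]
      have hsub : {v : ℂ | (ρ : ℂ) * v ∈ D} ⊆ {z : ℂ | 1 - 4 * s ≤ ‖z‖ ∧ ‖z‖ ≤ 1 - s / 10} := by
        intro v hv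
        obtain ⟨h1, h2⟩ := hv
        have hn : ‖(ρ : ℂ) * v‖ = ρ * ‖v‖ := by
          rw [norm_mul, Complex.norm_real, Real.norm_of_nonneg hρ0.le]
        rw [hn] at h1 h2
        constructor
        · nlinarith [norm_nonneg v]
        · by_contra hcon
          push Not at hcon
          have h3 : ρ * ρ < ρ * ‖v‖ := by
            apply mul_lt_mul_of_pos_left _ hρ0
            rw [hρ]; exact hcon
          have h4 : ρ * ρ = 1 - s / 5 + s ^ 2 / 100 := by rw [hρ]; ring
          nlinarith [sq_nonneg s]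
      have hpt : ∀ v ∈ {v : ℂ | (ρ : ℂ) * v ∈ D}, ENNReal.ofReal ‖deriv Φ ((ρ : ℂ) * v)‖
          ≤ ENNReal.ofReal (100 / ρ) * ENNReal.ofReal ‖deriv g v‖ := by
        intro v hv
        have hv1 := hsub hv
        have hvb : v ∈ ball (0 : ℂ) 1 := by
          rw [mem_ball_zero_iff]
          have := hv1.2
          linarith
        rw [← ENNReal.ofReal_mul (by positivity)]
        apply ENNReal.ofReal_le_ofReal
        rw [(hder v hvb).deriv]
        rw [norm_div, norm_mul, Complex.norm_real, Real.norm_of_nonneg hρ0.le]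
        have : ‖(100 : ℂ)‖ = 100 := by simp
        rw [this]
        apply le_of_eq
        field_simp
      have h1 : ∫⁻ v in {v : ℂ | (ρ : ℂ) * v ∈ D}, ENNReal.ofReal ‖deriv Φ ((ρ : ℂ) * v)‖
          ≤ ENNReal.ofReal (100 / ρ) * ENNReal.ofReal (40 * C₀ * s ^ (1 - δ)) := by
        refine (setLIntegral_mono (hGm.const_mul _) hpt).trans ?_
        rw [lintegral_const_mul _ hGm]
        refine mul_le_mul_right ((lintegral_mono_set hsub).trans ?_) _
        exact hAnn δ C₀ s g hδ0 hδ1 hC0.le hU hg hs (by linarith)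
      refine (mul_le_mul_right h1 _).trans ?_
      rw [← ENNReal.ofReal_mul (by positivity), ← ENNReal.ofReal_mul (by positivity)]
      apply ENNReal.ofReal_le_ofReal
      apply hbase2
      have h2 : ρ ^ 2 * (100 / ρ * (40 * C₀ * s ^ (1 - δ))) = ρ * (4000 * (C₀ * s ^ (1 - δ))) := by
        field_simp
        ring
      rw [h2]
      have h3 : 0 < C₀ * s ^ (1 - δ) := by positivity
      nlinarith
    · -- case 2b
      push Not at hbd
      obtain ⟨v₁, hv₁, hv₁'⟩ := hbd
      have hv₀1 : ‖v₀‖ ≤ ρ := by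
        have := hv₀.2.1
        rw [hρ]; linarith
      obtain ⟨v, hv, hv100, hv38⟩ := hPt Φ w₀ v₀ v₁ ρ hΦ.1 hρ0 hρ1 hv₀1 hv₁ (hA21 v₀ hv₀) hv₁'
      have h10s : 1 / (1 - ρ) = 10 / s := by
        rw [hρ]
        have : 1 - (1 - s / 10) = s / 10 := by ring
        rw [this]
        field_simp
      rw [h10s] at hv38
      have hlog10 : Real.log (10 / s) = Real.log 10 + Real.log (1 / s) := by
        rw [← Real.log_mul (by norm_num) (by positivity)]
        congr 1
        ring
      have hl10 : Real.log 10 ≤ 3 := by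
        rw [Real.log_le_iff_le_exp (by norm_num)]
        have h1 : (2.7182818283 : ℝ) < Real.exp 1 := Real.exp_one_gt_d9
        have h2 : Real.exp 3 = Real.exp 1 ^ 3 := by
          rw [← Real.exp_nat_mul]; norm_num
        rw [h2]
        have h3 : (2.7 : ℝ) ^ 3 ≤ Real.exp 1 ^ 3 := by
          apply pow_le_pow_left₀ (by norm_num)
          linarith
        refine le_trans ?_ h3
        norm_num
      have hl10' : 0 < Real.log 10 := Real.log_pos (by norm_num)
      set L : ℝ := Real.log (10 / s) with hL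
      have hL0 : 0 < L := by rw [hlog10]; linarith
      have hL3 : L ≤ 3 * (1 + Real.log (1 / s)) := by rw [hlog10]; linarith
      have hκ : 38 / L ≤ ‖deriv Φ v‖ * (1 - ‖v‖) := by
        rw [div_le_iff₀ hL0]; exact hv38
      have hvb : v ∈ ball (0 : ℂ) 1 := by
        rw [mem_ball_zero_iff]; linarith
      obtain ⟨g, hg, hgb⟩ := hSqr Φ w₀ v (38 / L) hΦ hw₀' hvb hv100 (by positivity) hκ
      have hGm : Measurable fun z : ℂ => ENNReal.ofReal ‖deriv g z‖ :=
        (measurable_deriv g).norm.ennreal_ofReal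
      have hpt : ∀ z ∈ A, ENNReal.ofReal ‖deriv Φ z‖
          ≤ ENNReal.ofReal (200000 * L / 38) * ENNReal.ofReal ‖deriv g z‖ := by
        intro z hz
        have hzb : z ∈ ball (0 : ℂ) 1 := by
          rw [mem_ball_zero_iff]
          have := hz.2.1
          linarith
        have h1 := hgb z hzb (hA21 z hz)
        rw [← ENNReal.ofReal_mul (by positivity)]
        apply ENNReal.ofReal_le_ofReal
        have h2 : ‖deriv Φ z‖ = L / 38 * (38 / L * ‖deriv Φ z‖) := by
          field_simp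
        have h3 : L / 38 * (38 / L * ‖deriv Φ z‖) ≤ L / 38 * (200000 * ‖deriv g z‖) :=
          mul_le_mul_of_nonneg_left h1 (by positivity)
        rw [h2]
        refine h3.trans (le_of_eq ?_)
        ring
      have hsub : A ⊆ {z : ℂ | 1 - 4 * s ≤ ‖z‖ ∧ ‖z‖ ≤ 1 - s / 10} := by
        rintro z ⟨h1, h2, -⟩
        exact ⟨h1, by linarith⟩
      refine (setLIntegral_mono (hGm.const_mul _) hpt).trans ?_
      rw [lintegral_const_mul _ hGm]
      refine (mul_le_mul_right ((lintegral_mono_set hsub).trans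
        (hAnn δ C₀ s g hδ0 hδ1 hC0.le hU hg hs (by linarith))) _).trans ?_
      rw [← ENNReal.ofReal_mul (by positivity)]
      apply ENNReal.ofReal_le_ofReal
      have h3 : 0 < C₀ * s ^ (1 - δ) := by positivity
      have h4 : 200000 * L / 38 * (40 * C₀ * s ^ (1 - δ)) ≤
          200000 * (3 * (1 + Real.log (1 / s))) / 38 * (40 * C₀ * s ^ (1 - δ)) := by
        apply mul_le_mul_of_nonneg_right _ (by positivity)
        linarith
      refine h4.trans ?_
      nlinarith [mul_nonneg h3.le hlog0]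

end Pool.Agent.Helper39.LT
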